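import Pool.Agent.H807R2.Dav1
import Pool.Agent.H373R2.T7.BilF

set_option autoImplicit false

/-! Averages over short arithmetic progressions from exponential sums with slowly varying weights. -/

namespace Pool.Agent.Helper65.LT

open Finset
open Pool.Agent.H807R2.Dav (ee norm_ee ee_add ee_int ee_pow ee_zero)
open Pool.Agent.H373R2.T7 (orth)

/-- small exponential sums with slowly varying weights -/
def Expo (h : ℕ → ℂ) : Prop := ∀ ε : ℝ, 0 < ε → ∀ A : ℝ, 0 ≤ A →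
    ∃ H₀ : ℝ, ∃ X₀ : ℕ, ∀ X : ℕ, X₀ ≤ X → ∀ H : ℝ, H₀ ≤ H → H ≤ X → ∀ T : ℕ → ℂ,
      (∀ n : ℕ, ‖T n‖ ≤ H) → (∀ n m : ℕ, ‖T n - T m‖ ≤ A * |(n : ℝ) - m|) → (∀ n : ℕ, 3 * X < n → T n = 0) →
      ∀ α : ℝ, ‖∑ n ∈ Icc 1 (3 * X), h n * ee ((n : ℝ) * α) * T n‖ ≤ ε * H * X

/-- prefix sums up to `X` -/
noncomputable def pre (a : ℕ → ℂ) (X n : ℕ) : ℂ := ∑ x ∈ Icc 1 (min n X), a x

lemma pre_lip {a : ℕ → ℂ} (ha : ∀ x, ‖a x‖ ≤ 1) (X : ℕ) {n m : ℕ} (h : n ≤ m) :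
    ‖pre a X m - pre a X n‖ ≤ (m : ℝ) - n := by
  unfold pre
  have h1 : Icc 1 (min n X) ⊆ Icc 1 (min m X) := by
    apply Icc_subset_Icc le_rfl
    omega
  rw [← sum_sdiff h1, add_sub_cancel_right]
  refine (norm_sum_le _ _).trans ?_
  refine (sum_le_sum fun x _ => ha x).trans ?_
  rw [sum_const, nsmul_eq_mul, mul_one, card_sdiff_of_subset h1, Nat.card_Icc, Nat.card_Icc]
  have : (min m X + 1 - 1 - (min n X + 1 - 1) : ℕ) ≤ m - n := by omega
  calc ((min m X + 1 - 1 - (min n X + 1 - 1) : ℕ) : ℝ) ≤ ((m - n : ℕ) : ℝ) := by exact_mod_cast this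
    _ = (m : ℝ) - n := by rw [Nat.cast_sub h]

lemma pre_lip' {a : ℕ → ℂ} (ha : ∀ x, ‖a x‖ ≤ 1) (X : ℕ) (n m : ℕ) :
    ‖pre a X n - pre a X m‖ ≤ |(n : ℝ) - m| := by
  rcases le_total n m with h | h
  · rw [norm_sub_rev, abs_sub_comm]
    exact (pre_lip ha X h).trans (le_abs_self _)
  · exact (pre_lip ha X h).trans (le_abs_self _)

/-- the sum over the `x ≤ X` with `n - L < x ≤ n` -/
noncomputable def win (a : ℕ → ℂ) (X L n : ℕ) : ℂ := pre a X n - pre a X (n - L)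

lemma win_eq (a : ℕ → ℂ) (X L n : ℕ) : win a X L n = ∑ x ∈ (Icc 1 X).filter (fun x => x ≤ n ∧ n < x + L), a x := by
  unfold win pre
  have h1 : Icc 1 (min (n - L) X) ⊆ Icc 1 (min n X) := by
    apply Icc_subset_Icc le_rfl
    omega
  rw [← sum_sdiff h1, add_sub_cancel_right]
  apply sum_congr _ fun _ _ => rfl
  ext x
  simp only [mem_sdiff, mem_Icc, mem_filter]
  omega

lemma win_norm {a : ℕ → ℂ} (ha : ∀ x, ‖a x‖ ≤ 1) (X L n : ℕ) : ‖win a X L n‖ ≤ L := by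
  unfold win
  refine (pre_lip ha X (Nat.sub_le n L)).trans ?_
  rcases le_total n L with h | h
  · rw [Nat.sub_eq_zero_of_le h]
    simp only [Nat.cast_zero, sub_zero]
    exact_mod_cast h
  · rw [Nat.cast_sub h]
    linarith

lemma win_lip {a : ℕ → ℂ} (ha : ∀ x, ‖a x‖ ≤ 1) (X L n m : ℕ) : ‖win a X L n - win a X L m‖ ≤ 2 * |(n : ℝ) - m| := by
  unfold win
  have e : pre a X n - pre a X (n - L) - (pre a X m - pre a X (m - L)) =
      (pre a X n - pre a X m) - (pre a X (n - L) - pre a X (m - L)) := by ring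
  rw [e]
  refine (norm_sub_le _ _).trans ?_
  have h1 := pre_lip' ha X n m
  have h2 := pre_lip' ha X (n - L) (m - L)
  have h3 : |((n - L : ℕ) : ℝ) - ((m - L : ℕ) : ℝ)| ≤ |(n : ℝ) - m| := by
    rcases le_total n m with h | h
    · rw [abs_sub_comm, abs_sub_comm (n : ℝ)]
      have a1 : ((n - L : ℕ) : ℝ) ≤ ((m - L : ℕ) : ℝ) := by exact_mod_cast Nat.sub_le_sub_right h L
      have a2 : (n : ℝ) ≤ m := by exact_mod_cast h
      rw [abs_of_nonneg (by linarith), abs_of_nonneg (by linarith)]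
      have : ((m - L : ℕ) : ℝ) + n ≤ (n - L : ℕ) + m := by exact_mod_cast (by omega : m - L + n ≤ n - L + m)
      linarith
    · have a1 : ((m - L : ℕ) : ℝ) ≤ ((n - L : ℕ) : ℝ) := by exact_mod_cast Nat.sub_le_sub_right h L
      have a2 : (m : ℝ) ≤ n := by exact_mod_cast h
      rw [abs_of_nonneg (by linarith), abs_of_nonneg (by linarith)]
      have : ((n - L : ℕ) : ℝ) + m ≤ (m - L : ℕ) + n := by exact_mod_cast (by omega : n - L + m ≤ m - L + n)
      linarith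
  linarith

lemma win_zero (a : ℕ → ℂ) {X L n : ℕ} (h : X + L ≤ n) : win a X L n = 0 := by
  rw [win_eq]
  apply sum_eq_zero
  intro x hx
  rw [mem_filter, mem_Icc] at hx
  omega

lemma phase (w : ℂ) : ∃ θ : ℂ, ‖θ‖ ≤ 1 ∧ θ * w = (‖w‖ : ℂ) := by
  refine ⟨(starRingEnd ℂ) w / ‖w‖, ?_, ?_⟩
  · simp only [norm_div, RCLike.norm_conj, Complex.norm_real, norm_norm]
    exact div_self_le_one _
  · by_cases h0 : ‖w‖ = 0
    · rw [norm_eq_zero.1 h0]; simp
    · have h0' : ((‖w‖ : ℝ) : ℂ) ≠ 0 := by exact_mod_cast h0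
      rw [div_mul_eq_mul_div, mul_comm, Complex.mul_conj, Complex.normSq_eq_norm_sq]
      field_simp
      push_cast
      ring

/-- a progression through its window -/
lemma prog (h : ℕ → ℂ) (q H M x : ℕ) (hq : 1 ≤ q) (hx : 1 ≤ x) (hM : x + q * H ≤ M + 1) (α : ℝ) :
    (q : ℂ) * ∑ k ∈ range H, h (x + q * k) * ee (((x + q * k : ℕ) : ℝ) * α) =
      ∑ t ∈ range q, ∑ n ∈ (Icc 1 M).filter (fun n => x ≤ n ∧ n < x + q * H),
        (h n * ee ((n : ℝ) * (α + t / q))) * ee (-((x : ℝ) * (t / q))) := by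
  rw [sum_comm]
  have hq0 : (q : ℝ) ≠ 0 := by exact_mod_cast (by omega : q ≠ 0)
  have e1 : ∀ n ∈ (Icc 1 M).filter (fun n => x ≤ n ∧ n < x + q * H),
      ∑ t ∈ range q, (h n * ee ((n : ℝ) * (α + t / q))) * ee (-((x : ℝ) * (t / q))) =
      if (q : ℤ) ∣ (n : ℤ) - x then (q : ℂ) * (h n * ee ((n : ℝ) * α)) else 0 := by
    intro n _
    have e2 : ∀ t ∈ range q, (h n * ee ((n : ℝ) * (α + t / q))) * ee (-((x : ℝ) * (t / q))) =
        (h n * ee ((n : ℝ) * α)) * ee ((t : ℝ) * ((((n : ℤ) - x : ℤ) : ℝ) / q)) := by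
      intro t _
      rw [mul_assoc, ← ee_add, mul_assoc, ← ee_add]
      congr 2
      push_cast
      field_simp
      ring
    rw [sum_congr rfl e2, ← mul_sum, orth q hq]
    split_ifs
    · ring
    · ring
  rw [sum_congr rfl e1, ← sum_filter, mul_sum]
  symm
  apply sum_bij' (i := fun n _ => (n - x) / q) (j := fun k _ => x + q * k)
  · intro n hn
    rw [mem_filter, mem_filter, mem_Icc] at hn
    rw [mem_range, Nat.div_lt_iff_lt_mul (by omega)]
    rw [mul_comm]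
    omega
  · intro k hk
    rw [mem_range] at hk
    rw [mem_filter, mem_filter, mem_Icc]
    have h1 : q * (k + 1) ≤ q * H := Nat.mul_le_mul_left _ hk
    have h2 : q * (k + 1) = q * k + q := by ring
    refine ⟨⟨⟨by omega, by omega⟩, by omega, by omega⟩, ⟨(k : ℤ), by push_cast; ring⟩⟩
  · intro n hn
    rw [mem_filter, mem_filter, mem_Icc] at hn
    obtain ⟨⟨_, h1, h2⟩, j, hj⟩ := hn
    have h3 : q ∣ n - x := by
      have : (q : ℤ) ∣ ((n - x : ℕ) : ℤ) := ⟨j, by rw [Nat.cast_sub h1]; exact hj⟩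
      exact_mod_cast this
    rw [Nat.mul_div_cancel' h3]
    omega
  · intro k _
    rw [Nat.add_sub_cancel_left, Nat.mul_div_cancel_left _ (by omega)]
  · intro n hn
    rw [mem_filter, mem_filter, mem_Icc] at hn
    obtain ⟨⟨_, h1, h2⟩, j, hj⟩ := hn
    have h3 : q ∣ n - x := by
      have : (q : ℤ) ∣ ((n - x : ℕ) : ℤ) := ⟨j, by rw [Nat.cast_sub h1]; exact hj⟩
      exact_mod_cast this
    rw [Nat.mul_div_cancel' h3, Nat.add_sub_cancel' h1]

/-- averages over short progressions -/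
theorem short {h : ℕ → ℂ} (hE : Expo h) {q : ℕ} (hq : 1 ≤ q) {η : ℝ} (hη : 0 < η) :
    ∃ H₁ : ℕ, ∀ H : ℕ, H₁ ≤ H → ∃ X₀ : ℕ, ∀ X : ℕ, X₀ ≤ X → ∀ α : ℝ,
      ∑ x ∈ Icc 1 X, ‖∑ k ∈ range H, h (x + q * k) * ee (((x + q * k : ℕ) : ℝ) * α)‖ ≤ η * H * X := by
  have hq0 : (0 : ℝ) < q := by exact_mod_cast hq
  obtain ⟨H₀, X₁, hmain⟩ := hE (η / q) (by positivity) 2 (by norm_num)
  obtain ⟨H₁, hH₁⟩ := exists_nat_ge H₀
  refine ⟨H₁, fun H hH => ⟨X₁ + q * H, fun X hX α => ?_⟩⟩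
  choose θ hθ1 hθ2 using fun x : ℕ => phase (∑ k ∈ range H, h (x + q * k) * ee (((x + q * k : ℕ) : ℝ) * α))
  have hHr : H₀ ≤ ((q * H : ℕ) : ℝ) := by
    refine hH₁.trans ?_
    have : H₁ ≤ q * H := hH.trans (Nat.le_mul_of_pos_left H hq)
    exact_mod_cast this
  have hHX : ((q * H : ℕ) : ℝ) ≤ X := by exact_mod_cast (by omega : q * H ≤ X)
  -- the identity
  have key : (q : ℂ) * ((∑ x ∈ Icc 1 X, ‖∑ k ∈ range H, h (x + q * k) * ee (((x + q * k : ℕ) : ℝ) * α)‖ : ℝ) : ℂ) =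
      ∑ t ∈ range q, ∑ n ∈ Icc 1 (3 * X), h n * ee ((n : ℝ) * (α + t / q)) *
        win (fun x => θ x * ee (-((x : ℝ) * (t / q)))) X (q * H) n := by
    push_cast
    rw [mul_sum]
    have e1 : ∀ x ∈ Icc 1 X, (q : ℂ) * (‖∑ k ∈ range H, h (x + q * k) * ee (((x + q * k : ℕ) : ℝ) * α)‖ : ℂ) =
        ∑ t ∈ range q, ∑ n ∈ Icc 1 (3 * X), if x ≤ n ∧ n < x + q * H then
          (h n * ee ((n : ℝ) * (α + t / q))) * (θ x * ee (-((x : ℝ) * (t / q)))) else 0 := by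
      intro x hx
      rw [mem_Icc] at hx
      have e2 := prog h q H (3 * X) x hq hx.1 (by omega) α
      have e3 : (q : ℂ) * (‖∑ k ∈ range H, h (x + q * k) * ee (((x + q * k : ℕ) : ℝ) * α)‖ : ℂ) =
          θ x * ((q : ℂ) * ∑ k ∈ range H, h (x + q * k) * ee (((x + q * k : ℕ) : ℝ) * α)) := by
        rw [← hθ2 x]
        ring
      rw [e3, e2, mul_sum]
      apply sum_congr rfl
      intro t _
      rw [mul_sum, sum_filter]
      apply sum_congr rfl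
      intro n _
      split_ifs
      · ring
      · rfl
    push_cast at e1
    rw [sum_congr rfl e1, sum_comm]
    apply sum_congr rfl
    intro t _
    rw [sum_comm]
    apply sum_congr rfl
    intro n _
    rw [win_eq, mul_sum, sum_filter]
  have hnorm : (q : ℝ) * ∑ x ∈ Icc 1 X, ‖∑ k ∈ range H, h (x + q * k) * ee (((x + q * k : ℕ) : ℝ) * α)‖ ≤
      ∑ t ∈ range q, (η / q) * ((q * H : ℕ) : ℝ) * X := by
    have e4 : (q : ℝ) * ∑ x ∈ Icc 1 X, ‖∑ k ∈ range H, h (x + q * k) * ee (((x + q * k : ℕ) : ℝ) * α)‖ =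
        ‖(q : ℂ) * ((∑ x ∈ Icc 1 X, ‖∑ k ∈ range H, h (x + q * k) * ee (((x + q * k : ℕ) : ℝ) * α)‖ : ℝ) : ℂ)‖ := by
      rw [norm_mul, Complex.norm_natCast, Complex.norm_real, Real.norm_eq_abs, abs_of_nonneg]
      exact sum_nonneg fun _ _ => norm_nonneg _
    rw [e4, key]
    refine (norm_sum_le _ _).trans (sum_le_sum fun t _ => ?_)
    have ha : ∀ x : ℕ, ‖θ x * ee (-((x : ℝ) * (t / q)))‖ ≤ 1 := by
      intro x
      rw [norm_mul, norm_ee, mul_one]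
      exact hθ1 x
    exact hmain X (by omega) _ hHr hHX _ (fun n => by exact_mod_cast win_norm ha X (q * H) n)
      (fun n m => win_lip ha X (q * H) n m) (fun n hn => win_zero _ (by omega)) _
  rw [sum_const, card_range, nsmul_eq_mul] at hnorm
  have h5 : (q : ℝ) * ((η / q) * ((q * H : ℕ) : ℝ) * X) = q * (η * H * X) := by
    push_cast
    field_simp
  rw [h5] at hnorm
  exact le_of_mul_le_mul_left hnorm hq0

end Pool.Agent.Helper65.LT
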