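import Pool.Agent.Helper65.LT.Slow

set_option autoImplicit false

/-! Functions with small exponential sums along almost all trajectories: the full range. -/

namespace Pool.Agent.Helper65.LT

open Finset
open Pool.Agent.H807R2.Dav (ee norm_ee ee_add ee_int ee_pow ee_zero)
open Pool.Agent.Results.MP_2d22f3_nt

lemma ncard_small (P : ℕ → Prop) (N K : ℕ) : (Set.ncard {n : ℕ | 1 ≤ n ∧ n ≤ N ∧ (n ≤ K ∧ P n)} : ℝ) ≤ K := by
  have h1 : {n : ℕ | 1 ≤ n ∧ n ≤ N ∧ (n ≤ K ∧ P n)} ⊆ ((Icc 1 K : Finset ℕ) : Set ℕ) := by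
    rintro n ⟨h1, _, h3, _⟩
    rw [coe_Icc]
    exact ⟨h1, h3⟩
  have h2 := Set.ncard_le_ncard h1 (Finset.finite_toSet _)
  rw [Set.ncard_coe_finset, Nat.card_Icc, Nat.add_sub_cancel] at h2
  exact_mod_cast h2

/-- extension to the full range of the times -/
theorem extend {β : Type} (D : β → ℕ → ℕ → ℝ)
    (hD : ∀ b n s t, s ≤ t → D b n t ≤ D b n s + ((t : ℝ) - s))
    (h : ∀ κ ε : ℝ, κ < 2 / Real.log (4 / 3) → 0 < ε → ∃ N₀ : ℕ, ∀ N ≥ N₀, ∀ b : β,
      (Set.ncard {n : ℕ | 1 ≤ n ∧ n ≤ N ∧ ∃ t : ℕ, (t : ℝ) ≤ κ * Real.log n ∧ ε * Real.log n < D b n t} : ℝ) ≤ ε * N)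
    {ε : ℝ} (hε : 0 < ε) : ∃ N₀ : ℕ, ∀ N ≥ N₀, ∀ b : β,
      (Set.ncard {n : ℕ | 1 ≤ n ∧ n ≤ N ∧ ∃ t : ℕ, (t : ℝ) ≤ 2 / Real.log (4 / 3) * Real.log n ∧
        ε * Real.log n < D b n t} : ℝ) ≤ ε * N := by
  set c := 2 / Real.log (4 / 3) with hc
  have hc0 : 0 < c := by
    have h0 : 0 < Real.log (4 / 3) := Real.log_pos (by norm_num)
    positivity
  obtain ⟨κ, hκ⟩ : ∃ κ : ℝ, κ = max (c - ε / 4) 0 := ⟨_, rfl⟩
  have hκ0 : 0 ≤ κ := by rw [hκ]; exact le_max_right _ _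
  have hκ1 : κ < c := by rw [hκ]; exact max_lt (by linarith) hc0
  have hκ2 : c - κ ≤ ε / 4 := by
    have := le_max_left (c - ε / 4) 0
    rw [← hκ] at this
    linarith
  obtain ⟨N₁, hN₁⟩ := h κ (ε / 2) hκ1 (by positivity)
  obtain ⟨K, hK⟩ := exists_nat_ge (Real.exp (4 / ε))
  obtain ⟨N₂, hN₂⟩ := exists_nat_ge (2 * K / ε)
  refine ⟨max N₁ N₂, fun N hN b => ?_⟩
  have hA := hN₁ N ((le_max_left _ _).trans hN) b
  have hN2 : 2 * K / ε ≤ (N : ℝ) := hN₂.trans (by exact_mod_cast (le_max_right _ _).trans hN)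
  have hKN : (K : ℝ) ≤ ε / 2 * N := by
    rw [div_le_iff₀ hε] at hN2
    linarith
  refine (ncard_le_add (Q := fun n => ∃ t : ℕ, (t : ℝ) ≤ κ * Real.log n ∧ ε / 2 * Real.log n < D b n t)
    (R := fun n => n ≤ K ∧ True) ?_).trans ((add_le_add hA ((ncard_small _ N K).trans hKN)).trans (by linarith))
  rintro n hn1 hnN ⟨t, ht, hbig⟩
  by_cases hnK : n ≤ K
  · exact Or.inr ⟨hnK, trivial⟩
  left
  push Not at hnK
  have hn0 : (0 : ℝ) < n := by exact_mod_cast hn1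
  have hlog : 4 / ε ≤ Real.log n := by
    rw [Real.le_log_iff_exp_le hn0]
    exact hK.trans (by exact_mod_cast hnK.le)
  have hlog1 : 1 ≤ ε / 4 * Real.log n := by
    rw [div_le_iff₀ hε] at hlog
    linarith
  have hlog0 : 0 ≤ Real.log n := Real.log_nonneg (by exact_mod_cast hn1)
  by_cases ht1 : (t : ℝ) ≤ κ * Real.log n
  · refine ⟨t, ht1, lt_of_le_of_lt ?_ hbig⟩
    nlinarith
  push Not at ht1
  refine ⟨⌊κ * Real.log n⌋₊, Nat.floor_le (by positivity), ?_⟩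
  have h1 : ⌊κ * Real.log n⌋₊ ≤ t := by
    have : (⌊κ * Real.log n⌋₊ : ℝ) ≤ t := (Nat.floor_le (by positivity)).trans ht1.le
    exact_mod_cast this
  have h2 := hD b n _ t h1
  have h3 : κ * Real.log n < ⌊κ * Real.log n⌋₊ + 1 := Nat.lt_floor_add_one _
  have h4 : (c - κ) * Real.log n ≤ ε / 4 * Real.log n := mul_le_mul_of_nonneg_right hκ2 hlog0
  nlinarith

/-- the weights and the phases -/
def Par : Type := {p : (ℕ → ℂ) × (ℕ → ℝ) // ∀ k, ‖p.1 k‖ ≤ 1}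

/-- the sum along a trajectory -/
noncomputable def S (f : ℕ → ℂ) (w : ℕ → ℂ) (α : ℕ → ℝ) (n t : ℕ) : ℂ :=
  ∑ k ∈ range t, w k * (f (T^[k] n) * ee (((T^[k] n : ℕ) : ℝ) * α k))

lemma S_lip {f : ℕ → ℂ} (hf : ∀ n, ‖f n‖ ≤ 1) {w : ℕ → ℂ} (hw : ∀ k, ‖w k‖ ≤ 1) (α : ℕ → ℝ) (n s t : ℕ) (h : s ≤ t) :
    ‖S f w α n t‖ ≤ ‖S f w α n s‖ + ((t : ℝ) - s) := by
  unfold S
  rw [← Finset.sum_range_add_sum_Ico _ h]
  refine (norm_add_le _ _).trans (add_le_add le_rfl ?_)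
  refine (norm_sum_le _ _).trans ?_
  refine (sum_le_sum (g := fun _ => (1 : ℝ)) fun k _ => ?_).trans ?_
  · rw [norm_mul, norm_mul, norm_ee, mul_one]
    exact mul_le_one₀ (hw k) (norm_nonneg _) (hf _)
  · rw [sum_const, Nat.card_Ico, nsmul_eq_mul, mul_one, Nat.cast_sub h]

theorem along {h v : ℕ → ℂ} (hE : Expo h) (hb : ∀ n, ‖h n‖ ≤ 1) (hv : ∀ n, ‖v n‖ ≤ 1) (hs : Slow v)
    {ε : ℝ} (hε : 0 < ε) :
    ∃ N₀ : ℕ, ∀ N ≥ N₀, ∀ (w : ℕ → ℂ) (α : ℕ → ℝ), (∀ k, ‖w k‖ ≤ 1) →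
      (Set.ncard {n : ℕ | 1 ≤ n ∧ n ≤ N ∧ ∃ t : ℕ, (t : ℝ) ≤ 2 / Real.log (4 / 3) * Real.log n ∧
        ε * Real.log n < ‖S (fun n => h n * v n) w α n t‖} : ℝ) ≤ ε * N := by
  have hf : ∀ n, ‖h n * v n‖ ≤ 1 := by
    intro n
    rw [norm_mul]
    exact mul_le_one₀ (hb n) (norm_nonneg _) (hv n)
  obtain ⟨N₀, hN₀⟩ := extend (β := Par) (fun p n t => ‖S (fun n => h n * v n) p.1.1 p.1.2 n t‖)
    (fun p n s t hst => S_lip hf p.2 _ n s t hst) (by
    intro κ ε hκ hε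
    obtain ⟨N₁, hN₁⟩ := real_part hE hb hv hs hκ (ε := ε / 2) (by positivity)
    refine ⟨N₁, fun N hN p => ?_⟩
    have h1 := hN₁ N hN p.1.1 p.1.2 p.2
    have h2 := hN₁ N hN (fun k => -Complex.I * p.1.1 k) p.1.2 (fun k => by
      rw [norm_mul, norm_neg, Complex.norm_I, one_mul]
      exact p.2 k)
    refine (ncard_le_add ?_).trans ((add_le_add h1 h2).trans (by linarith))
    rintro n hn1 hnN ⟨t, ht, hbig⟩
    by_contra hcon
    push Not at hcon
    obtain ⟨c1, c2⟩ := hcon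
    have d1 := c1 t ht
    have d2 := c2 t ht
    have e1 : ∑ k ∈ range t, (p.1.1 k * (h (T^[k] n) * v (T^[k] n) * ee (((T^[k] n : ℕ) : ℝ) * p.1.2 k))).re =
        (S (fun n => h n * v n) p.1.1 p.1.2 n t).re := by
      unfold S
      rw [Complex.re_sum]
    have e2 : ∑ k ∈ range t, (-Complex.I * p.1.1 k * (h (T^[k] n) * v (T^[k] n) *
        ee (((T^[k] n : ℕ) : ℝ) * p.1.2 k))).re = (S (fun n => h n * v n) p.1.1 p.1.2 n t).im := by
      unfold S
      rw [Complex.im_sum]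
      apply sum_congr rfl
      intro k _
      rw [mul_assoc, neg_mul, Complex.neg_re, Complex.I_mul_re, neg_neg]
    rw [e1] at d1
    rw [e2] at d2
    have e3 := Complex.norm_le_abs_re_add_abs_im (S (fun n => h n * v n) p.1.1 p.1.2 n t)
    have hbig' : ε * Real.log n < ‖S (fun n => h n * v n) p.1.1 p.1.2 n t‖ := hbig
    linarith) hε
  exact ⟨N₀, fun N hN w α hw => hN₀ N hN ⟨(w, α), hw⟩⟩

/-! ### slowly varying functions -/

theorem slow_of_bound {v : ℕ → ℂ} (g : ℕ → ℝ) (h : ∀ X, ∑ x ∈ Icc 1 X, ‖v (x + 1) - v x‖ ≤ g X)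
    (hg : Filter.Tendsto (fun X : ℕ => g X / X) Filter.atTop (nhds 0)) : Slow v := by
  intro η hη
  have h1 := hg.eventually (gt_mem_nhds hη)
  obtain ⟨X₀, hX₀⟩ := Filter.eventually_atTop.1 h1
  refine ⟨max X₀ 1, fun X hX => (h X).trans ?_⟩
  have h2 := hX₀ X ((le_max_left _ _).trans hX)
  have hX0 : (0 : ℝ) < X := by exact_mod_cast ((le_max_right _ _).trans hX : 1 ≤ X)
  rw [div_lt_iff₀ hX0] at h2
  exact h2.le

theorem slow_one : Slow (fun _ => 1) := by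
  intro η hη
  refine ⟨0, fun X _ => ?_⟩
  simp only [sub_self, norm_zero, sum_const_zero]
  positivity

open Classical in
/-- leading digits -/
noncomputable def lead (B a b : ℝ) (x : ℕ) : ℂ :=
  if a ≤ Int.fract (Real.logb B x) ∧ Int.fract (Real.logb B x) < b then 1 else 0

lemma lead_norm (B a b : ℝ) (x : ℕ) : ‖lead B a b x‖ ≤ 1 := by
  unfold lead
  split_ifs <;> simp

lemma lead_eq {B a b : ℝ} (ha : 0 ≤ a) (hab : a ≤ b) (hb : b ≤ 1) (x : ℕ) :
    lead B a b x = (((⌊Real.logb B x - a⌋ - ⌊Real.logb B x - b⌋ : ℤ) : ℝ) : ℂ) := by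
  unfold lead
  set y := Real.logb B x with hy
  have h1 := Int.fract_nonneg y
  have h2 := Int.fract_lt_one y
  have h3 : y = ⌊y⌋ + Int.fract y := (Int.floor_add_fract y).symm
  have f1 : a ≤ Int.fract y → ⌊y - a⌋ = ⌊y⌋ := by
    intro h
    rw [Int.floor_eq_iff]
    constructor <;> linarith
  have f2 : Int.fract y < a → ⌊y - a⌋ = ⌊y⌋ - 1 := by
    intro h
    rw [Int.floor_eq_iff]
    push_cast
    constructor <;> linarith
  have g1 : b ≤ Int.fract y → ⌊y - b⌋ = ⌊y⌋ := by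
    intro h
    rw [Int.floor_eq_iff]
    constructor <;> linarith
  have g2 : Int.fract y < b → ⌊y - b⌋ = ⌊y⌋ - 1 := by
    intro h
    rw [Int.floor_eq_iff]
    push_cast
    constructor <;> linarith
  by_cases ha1 : a ≤ Int.fract y
  · by_cases hb1 : Int.fract y < b
    · rw [if_pos ⟨ha1, hb1⟩, f1 ha1, g2 hb1]
      push_cast
      ring
    · rw [if_neg (fun h => hb1 h.2), f1 ha1, g1 (not_lt.1 hb1)]
      push_cast
      ring
  · rw [if_neg (fun h => ha1 h.1), f2 (not_le.1 ha1), g2 (by linarith [not_le.1 ha1])]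
    push_cast
    ring

theorem slow_lead {B a b : ℝ} (hB : 1 < B) (ha : 0 ≤ a) (hab : a ≤ b) (hb : b ≤ 1) : Slow (lead B a b) := by
  have hmono : ∀ x : ℕ, 1 ≤ x → Real.logb B x ≤ Real.logb B (x + 1 : ℕ) := by
    intro x hx
    have hx0 : (0 : ℝ) < x := by exact_mod_cast hx
    apply Real.logb_le_logb_of_le hB hx0
    push_cast
    linarith
  have hstep : ∀ d : ℝ, ∀ x : ℕ, 1 ≤ x → ⌊Real.logb B x - d⌋ ≤ ⌊Real.logb B (x + 1 : ℕ) - d⌋ := by
    intro d x hx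
    apply Int.floor_le_floor
    linarith [hmono x hx]
  have htele : ∀ (F : ℕ → ℝ) (X : ℕ), ∑ x ∈ Icc 1 X, (F (x + 1) - F x) = F (X + 1) - F 1 := by
    intro F X
    induction X with
    | zero => simp
    | succ X ih =>
      rw [Finset.sum_Icc_succ_top (by omega), ih]
      ring
  apply slow_of_bound (g := fun X => 2 * Real.logb B (X + 1 : ℕ) + 4)
  · intro X
    have h1 : ∀ x ∈ Icc 1 X, ‖lead B a b (x + 1) - lead B a b x‖ ≤
        (((⌊Real.logb B (x + 1 : ℕ) - a⌋ : ℤ) : ℝ) - (⌊Real.logb B x - a⌋ : ℤ)) +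
        (((⌊Real.logb B (x + 1 : ℕ) - b⌋ : ℤ) : ℝ) - (⌊Real.logb B x - b⌋ : ℤ)) := by
      intro x hx
      rw [mem_Icc] at hx
      rw [lead_eq ha hab hb, lead_eq ha hab hb, ← Complex.ofReal_sub, Complex.norm_real, Real.norm_eq_abs]
      have h2 : ((⌊Real.logb B x - a⌋ : ℤ) : ℝ) ≤ (⌊Real.logb B (x + 1 : ℕ) - a⌋ : ℤ) := by
        exact_mod_cast hstep a x hx.1
      have h3 : ((⌊Real.logb B x - b⌋ : ℤ) : ℝ) ≤ (⌊Real.logb B (x + 1 : ℕ) - b⌋ : ℤ) := by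
        exact_mod_cast hstep b x hx.1
      push_cast at h2 h3 ⊢
      rw [abs_le]
      constructor <;> linarith
    refine (sum_le_sum h1).trans ?_
    rw [sum_add_distrib, htele (fun x => ((⌊Real.logb B (x : ℕ) - a⌋ : ℤ) : ℝ)) X,
      htele (fun x => ((⌊Real.logb B (x : ℕ) - b⌋ : ℤ) : ℝ)) X]
    have h4 := Int.floor_le (Real.logb B (X + 1 : ℕ) - a)
    have h5 := Int.floor_le (Real.logb B (X + 1 : ℕ) - b)
    have h6 : (-1 : ℝ) ≤ (⌊Real.logb B (1 : ℕ) - a⌋ : ℤ) := by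
      have : (-1 : ℤ) ≤ ⌊Real.logb B (1 : ℕ) - a⌋ := by
        rw [Int.le_floor]
        simp only [Nat.cast_one, Real.logb_one]
        push_cast
        linarith
      exact_mod_cast this
    have h7 : (-1 : ℝ) ≤ (⌊Real.logb B (1 : ℕ) - b⌋ : ℤ) := by
      have : (-1 : ℤ) ≤ ⌊Real.logb B (1 : ℕ) - b⌋ := by
        rw [Int.le_floor]
        simp only [Nat.cast_one, Real.logb_one]
        push_cast
        linarith
      exact_mod_cast this
    linarith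
  · have hlogB : 0 < Real.log B := Real.log_pos hB
    have h1 : Filter.Tendsto (fun X : ℕ => Real.log ((X : ℝ) + 1) / X) Filter.atTop (nhds 0) := by
      have h2 : Filter.Tendsto (fun x : ℝ => Real.log x / x) Filter.atTop (nhds 0) := by
        simpa using Real.tendsto_pow_log_div_mul_add_atTop 1 0 1 one_ne_zero
      have h3 : Filter.Tendsto (fun X : ℕ => (X : ℝ) + 1) Filter.atTop Filter.atTop :=
        Filter.tendsto_atTop_add_const_right _ _ tendsto_natCast_atTop_atTop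
      have h4 := (h2.comp h3).const_mul 2
      rw [mul_zero] at h4
      refine squeeze_zero' ?_ ?_ h4
      · filter_upwards [Filter.eventually_ge_atTop 1] with X hX
        have : (0 : ℝ) ≤ X := Nat.cast_nonneg _
        apply div_nonneg (Real.log_nonneg (by linarith)) this
      · filter_upwards [Filter.eventually_ge_atTop 1] with X hX
        have hX1 : (1 : ℝ) ≤ X := by exact_mod_cast hX
        have hl : 0 ≤ Real.log ((X : ℝ) + 1) := Real.log_nonneg (by linarith)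
        simp only [Function.comp]
        rw [← mul_div_assoc, div_le_div_iff₀ (by linarith) (by linarith)]
        nlinarith
    have h5 : Filter.Tendsto (fun X : ℕ => 4 / (X : ℝ)) Filter.atTop (nhds 0) :=
      tendsto_const_div_atTop_nhds_zero_nat 4
    have h6 := (h1.const_mul (2 / Real.log B)).add h5
    rw [mul_zero, add_zero] at h6
    refine h6.congr fun X => ?_
    unfold Real.logb
    push_cast
    field_simp

end Pool.Agent.Helper65.LT
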